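import Pool.Agent.Helper33.PS.Ext
import Pool.Agent.Helper33.UB.Sel4

/-!
# Plan S: directions of the points of a block
-/

set_option autoImplicit false

open Finset Polynomial

namespace Pool.Agent.Helper33.PS

open Pool.Agent.Helper33.UB Pool.Agent.Helper51.RatTree Pool.Agent.Helper55.RD
  Pool.Agent.Helper93.RatODE Pool.Agent.Helper45.FR

variable {k K V : Type} [Field k] [Field K] [Algebra k K] {P : PSys k K V}
  {F G : K[X]} {x : ℕ → K} {N d : ℕ} [DecidableEq K]

theorem exists_dir (h : RatOrbit F G x N) (hd : 2 ≤ d) (hcop : IsCoprime F G)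
    (hF : F.natDegree ≤ d) (hG : G.natDegree ≤ d) (htop : F.coeff d ≠ 0 ∨ G.coeff d ≠ 0)
    (hres : resultant F G d d ≠ 0) (M : ℝ) (T : Finset V) (hT : RAdm P F G d (rX h) T)
    (hker : ∀ y, P.D y = 0 → ∃ c : k, algebraMap k K c = y)
    (hconst : ∀ v, ∀ c : k, c ≠ 0 → (P.pl v).o (algebraMap k K c) = 0)
    {v : V} {i J N' : ℕ} (hJ : 1 ≤ J) (hle : i + N' * J ≤ N)
    (hst : (∃ ζ : (ratInst h hd hcop hF hG htop hres M T hT hker hconst).Vx v,
        ∀ l l', l < l' → l' ≤ N' →
        ((ratInst h hd hcop hF hG htop hres M T hT hker hconst).S v).dir ζ (i + l * J) ≠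
        ((ratInst h hd hcop hF hG htop hres M T hT hker hconst).S v).dir ζ (i + l' * J)) ∨
      ((ratInst h hd hcop hF hG htop hres M T hT hker hconst).ε v = 0 ∧
        ∀ l l', l < l' → l' ≤ N' →
        (ratInst h hd hcop hF hG htop hres M T hT hker hconst).g v (i + l * J) (i + l' * J) <
          (ratConst d hd).c1)) :
    ∃ ζ : PV (P.pl v), ∀ l l', l ≤ N' → l' ≤ N' → l ≠ l' →
      ζ.dir (x (i + l * J)) ≠ ζ.dir (x (i + l' * J)) := by
  rcases hst with ⟨ζ, hζ⟩ | ⟨hε, hg⟩
  · refine ⟨ζ, ?_⟩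
    intro l l' hl hl' hne
    rcases lt_or_gt_of_ne hne with hlt | hlt
    · exact hζ l l' hlt hl'
    · exact (hζ l' l hlt hl).symm
  · have hε0 : (rloc hd (P.pl v) hF hG hres h).ε = 0 := by
      change ((rloc hd (P.pl v) hF hG hres h).ε : ℝ) = 0 at hε
      exact_mod_cast hε
    have hidx : ∀ l, l ≤ N' → i + l * J ≤ N := fun l hl =>
      le_trans (by gcongr) hle
    have hinj : ∀ l l', l ≤ N' → l' ≤ N' → l ≠ l' → x (i + l * J) ≠ x (i + l' * J) := by
      intro l l' hl hl' hne e
      have := h.inj _ _ (hidx l hl) (hidx l' hl') e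
      have h2 : l * J = l' * J := by omega
      exact hne (Nat.eq_of_mul_eq_mul_right (by omega) h2)
    refine ⟨PV.mk (P.pl v) (rloc hd (P.pl v) hF hG hres h).a (rloc hd (P.pl v) hF hG hres h).r, ?_⟩
    have key : ∀ l l', l < l' → l' ≤ N' → ¬ 1 ≤ gp (P.pl v) (rloc hd (P.pl v) hF hG hres h).a
        (rloc hd (P.pl v) hF hG hres h).r (x (i + l * J)) (x (i + l' * J)) := by
      intro l l' hl hl' h1
      have h2 := hg l l' hl hl'
      have hne := hinj l l' (by omega) hl' (by omega)
      have h3 := (abs_le.mp ((rloc hd (P.pl v) hF hG hres h).close _ (mem_rX h (i + l * J)) _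
        (mem_rX h (i + l' * J)) hne)).1
      have h4 : (1 : ℝ) ≤ gp (P.pl v) (rloc hd (P.pl v) hF hG hres h).a
        (rloc hd (P.pl v) hF hG hres h).r (x (i + l * J)) (x (i + l' * J)) := by exact_mod_cast h1
      rw [hε0] at h3
      unfold gg at h3
      have h5 : ((P.pl v).o (x (i + l * J) - x (i + l' * J)) : ℝ) +
          (-ratH (P.pl v) d F G (x (i + l * J)) +
            (P.pl v).o (resultant F G d d) / (d * (d - 1)) / 2) +
          (-ratH (P.pl v) d F G (x (i + l' * J)) +
            (P.pl v).o (resultant F G d d) / (d * (d - 1)) / 2) < 1 := h2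
      push_cast at h3
      linarith
    intro l l' hl hl' hne hdir
    have hgp := (dir_eq_iff_gp (hinj l l' hl hl' hne)).mp hdir
    rcases lt_or_gt_of_ne hne with hlt | hlt
    · exact key l l' hlt hl' (by unfold gp; omega)
    · refine key l' l hlt hl ?_
      unfold gp
      rw [(P.pl v).o_sub_comm]
      omega

end Pool.Agent.Helper33.PS
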