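import Pool.Agent.Helper33.UB.AM2
import Pool.Agent.Helper33.DVBasic

/-!
# Plan S: common definitions

Good reduction, residue fields, heights, Galois extensions of place systems.
-/

set_option autoImplicit false

open Polynomial

namespace Pool.Agent.Helper33.PS

/-- good reduction of `A / B` (degree `d`) in the given coordinate -/
def IsGood {K : Type*} [Field K] (v : DV K) (d : ℕ) (A B : K[X]) : Prop :=
  ∃ c : K, c ≠ 0 ∧ (∀ i, v.ge (v.o c) (A.coeff i)) ∧ (∀ i, v.ge (v.o c) (B.coeff i)) ∧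
    v.o (resultant A B d d) = 2 * d * v.o c

/-- `A / B` is a rational function of degree `d` -/
structure IsRat {K : Type*} [Field K] (A B : K[X]) (d : ℕ) : Prop where
  cop : IsCoprime A B
  dA : A.natDegree ≤ d
  dB : B.natDegree ≤ d
  top : A.coeff d ≠ 0 ∨ B.coeff d ≠ 0

/-- `k` is the residue field of `v` -/
structure ResK (k : Type*) {K : Type*} [Field k] [Field K] [Algebra k K] (v : DV K) : Prop where
  const : ∀ c : k, c ≠ 0 → v.o (algebraMap k K c) = 0
  res : ∀ x : K, v.ge 0 x → ∃ c : k, v.ge 1 (x - algebraMap k K c)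

/-- order of the pole -/
noncomputable def neg {K : Type*} [Field K] (v : DV K) (x : K) : ℤ :=
  open Classical in if x = 0 then 0 else max 0 (-(v.o x))

/-- height -/
noncomputable def ht {k K V : Type*} [Field k] [Field K] [Algebra k K] (P : PSys k K V) (x : K) : ℤ :=
  ∑ᶠ v, neg (P.pl v) x

/-- the beginning of an orbit of `A / B` -/
structure Orb {K : Type*} [Field K] (A B : K[X]) (z : ℕ → K) (n : ℕ) : Prop where
  ne : ∀ j < n, B.eval (z j) ≠ 0
  step : ∀ j < n, z (j + 1) = A.eval (z j) / B.eval (z j)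

/-- a Galois extension of place systems (the group may be replaced by a subset) -/
structure GalSys {k K E V W : Type*} [Field k] [Field K] [Field E] [Algebra k K] [Algebra k E]
    [Algebra K E] [IsScalarTower k K E] (P : PSys k K V) (Q : PSys k E W) (n : ℕ) where
  /-- the group -/
  G : Finset (E ≃ₐ[k] E)
  card_G : G.card ≤ n
  /-- the action on places -/
  act : (E ≃ₐ[k] E) → W ≃ W
  act_spec : ∀ σ ∈ G, ∀ w, ∀ y : E, (Q.pl (act σ w)).o (σ y) = (Q.pl w).o y
  /-- restriction of places -/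
  res : W → V
  /-- ramification indices -/
  ram : W → ℕ
  ram_pos : ∀ w, 1 ≤ ram w
  ram_spec : ∀ w, ∀ y : K, y ≠ 0 → (Q.pl w).o (algebraMap K E y) = ram w * (P.pl (res w)).o y
  fib : ∀ v, ∀ s : Finset W, (∀ w ∈ s, res w = v) → ∑ w ∈ s, ram w ≤ n
  e_le : ∀ v, P.e v ≤ n
  ramified : ∀ v, 1 ≤ P.e v → ∃ w, res w = v ∧ ∃ σ ∈ G, act σ w = w ∧
    ∃ y : K, σ (algebraMap K E y) ≠ algebraMap K E y

end Pool.Agent.Helper33.PS
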