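import Pool.Agent.Helper33.PS.Heights
import Pool.Agent.Helper33.UB.RatInst

/-!
# Plan S: base change and conjugation
-/

set_option autoImplicit false

open Finset Polynomial

namespace Pool.Agent.Helper33.PS

open Pool.Agent.Helper33.UB

lemma IsRat.map {K E : Type*} [Field K] [Field E] (φ : K →+* E) {A B : K[X]} {d : ℕ}
    (h : IsRat A B d) : IsRat (A.map φ) (B.map φ) d where
  cop := h.cop.map (mapRingHom φ)
  dA := natDegree_map_le.trans h.dA
  dB := natDegree_map_le.trans h.dB
  top := by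
    rcases h.top with h1 | h1
    · left; rw [coeff_map, Ne, map_eq_zero]; exact h1
    · right; rw [coeff_map, Ne, map_eq_zero]; exact h1

lemma Orb.map {K E : Type*} [Field K] [Field E] (φ : K →+* E) {A B : K[X]} {z : ℕ → K} {n : ℕ}
    (h : Orb A B z n) : Orb (A.map φ) (B.map φ) (fun j => φ (z j)) n where
  ne j hj := by
    rw [eval_map, eval₂_at_apply, Ne, map_eq_zero]
    exact h.ne j hj
  step j hj := by
    rw [eval_map, eval₂_at_apply, eval_map, eval₂_at_apply, ← map_div₀, ← h.step j hj]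

/-- a ring homomorphism compatible with two valuations up to a positive factor -/
structure VHom {K E : Type*} [Field K] [Field E] (φ : K →+* E) (v : DV K) (w : DV E) where
  /-- the ramification index -/
  r : ℕ
  r_pos : 1 ≤ r
  spec : ∀ y : K, y ≠ 0 → w.o (φ y) = r * v.o y

namespace VHom

variable {K E : Type*} [Field K] [Field E] {φ : K →+* E} {v : DV K} {w : DV E} (h : VHom φ v w)

include h

lemma ge_zero {y : K} (hy : v.ge 0 y) : w.ge 0 (φ y) := by
  by_cases h0 : y = 0
  · left; rw [h0, map_zero]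
  right
  have h1 : 0 ≤ v.o y := by exact_mod_cast DV.ge_le hy h0
  rw [h.spec y h0]
  have : 0 ≤ (h.r : ℤ) * v.o y := by positivity
  exact_mod_cast this

lemma ge_one {y : K} (hy : v.ge 1 y) : w.ge 1 (φ y) := by
  by_cases h0 : y = 0
  · left; rw [h0, map_zero]
  right
  have h1 : 1 ≤ v.o y := by exact_mod_cast DV.ge_le hy h0
  rw [h.spec y h0]
  have h2 := h.r_pos
  have : 1 ≤ (h.r : ℤ) * v.o y := by
    have : (1 : ℤ) ≤ h.r := by exact_mod_cast h2
    nlinarith
  exact_mod_cast this

lemma o_zero {y : K} (h0 : y ≠ 0) (hy : v.o y = 0) : w.o (φ y) = 0 := by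
  rw [h.spec y h0, hy, mul_zero]

lemma isGood {d : ℕ} {A B : K[X]} (hres : resultant A B d d ≠ 0) (hg : IsGood v d A B) :
    IsGood w d (A.map φ) (B.map φ) := by
  obtain ⟨c, hc, hA, hB, hr⟩ := hg
  have key : ∀ y : K, v.ge (v.o c) y → w.ge (w.o (φ c)) (φ y) := by
    intro y hy
    by_cases h0 : y = 0
    · left; rw [h0, map_zero]
    right
    have h1 : v.o c ≤ v.o y := by exact_mod_cast DV.ge_le hy h0
    rw [h.spec y h0, h.spec c hc]
    have : (h.r : ℤ) * v.o c ≤ (h.r : ℤ) * v.o y := mul_le_mul_of_nonneg_left h1 (by positivity)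
    exact_mod_cast this
  refine ⟨φ c, by rw [Ne, map_eq_zero]; exact hc, fun i => ?_, fun i => ?_, ?_⟩
  · rw [coeff_map]; exact key _ (hA i)
  · rw [coeff_map]; exact key _ (hB i)
  · rw [resultant_map_map, h.spec _ hres, h.spec c hc, hr]
    ring

end VHom

section gal

variable {k K E V W : Type*} [Field k] [Field K] [Field E] [Algebra k K] [Algebra k E] [Algebra K E]
  [IsScalarTower k K E] {P : PSys k K V} {Q : PSys k E W} {n : ℕ} (gs : GalSys P Q n)

/-- base change -/
def vhomMap (w : W) : VHom (algebraMap K E) (P.pl (gs.res w)) (Q.pl w) where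
  r := gs.ram w
  r_pos := gs.ram_pos w
  spec y hy := gs.ram_spec w y hy

/-- conjugation at a fixed place -/
def vhomConj {σ : E ≃ₐ[k] E} (hσ : σ ∈ gs.G) {w : W} (hw : gs.act σ w = w) :
    VHom ((σ : E →+* E).comp (algebraMap K E)) (P.pl (gs.res w)) (Q.pl w) where
  r := gs.ram w
  r_pos := gs.ram_pos w
  spec y hy := by
    have h1 := gs.act_spec σ hσ w (algebraMap K E y)
    rw [hw] at h1
    change (Q.pl w).o (σ (algebraMap K E y)) = _
    rw [h1, gs.ram_spec w y hy]

end gal

lemma resultant_ne_zero_of_isRat {K : Type*} [Field K] {A B : K[X]} {d : ℕ} (hd : 1 ≤ d)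
    (h : IsRat A B d) : resultant A B d d ≠ 0 := by
  apply Pool.Agent.Helper55.RD.resultant_ne_zero_of_isCoprime h.cop h.dA h.dB ?_ hd
  rcases h.top with h3 | h3
  · exact Or.inl (le_antisymm h.dA (le_natDegree_of_ne_zero h3))
  · exact Or.inr (le_antisymm h.dB (le_natDegree_of_ne_zero h3))

/-- two rational maps which agree at many points -/
lemma cross_eq_zero_of_agree {E : Type*} [Field E] {A B A' B' : E[X]} {d : ℕ} (h : IsRat A B d)
    (h' : IsRat A' B' d) (s : Finset E) (hs : 2 * d < s.card)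
    (hag : ∀ x ∈ s, B.eval x ≠ 0 ∧ B'.eval x ≠ 0 ∧ A.eval x / B.eval x = A'.eval x / B'.eval x) :
    A' * B = A * B' := by
  rw [← sub_eq_zero]
  apply eq_zero_of_natDegree_lt_card_of_eval_eq_zero' _ s
  · intro x hx
    obtain ⟨h1, h2, h3⟩ := hag x hx
    rw [div_eq_div_iff h1 h2] at h3
    rw [eval_sub, eval_mul, eval_mul, h3]
    ring
  · refine lt_of_le_of_lt (natDegree_sub_le _ _) ?_
    apply max_lt
    · exact lt_of_le_of_lt (natDegree_mul_le.trans (add_le_add h'.dA h.dB)) (by omega)
    · exact lt_of_le_of_lt (natDegree_mul_le.trans (add_le_add h.dA h'.dB)) (by omega)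

end Pool.Agent.Helper33.PS
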