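import Pool.Agent.Helper33.PS.Mods
import Pool.Agent.Helper33.PS.Ext

/-!
# Plan S: an automorphism which fixes the tail of the orbit
-/

set_option autoImplicit false

open Finset Polynomial

namespace Pool.Agent.Helper33.PS

open Pool.Agent.Helper33.UB

theorem fix_of_places (d n : ℕ) (hd : 2 ≤ d) (c : ℝ) (hc : 0 < c) : ∃ l₀ nw₀ : ℕ,
    ∀ {k K E V W : Type} [Field k] [IsAlgClosed k] [CharZero k] [Field K] [Field E] [Algebra k K]
    [Algebra k E] [Algebra K E] [IsScalarTower k K E] (P : PSys k K V) (Q : PSys k E W)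
    (hP : ∀ v, ResK k (P.pl v)) (hQ : ∀ w, ResK k (Q.pl w)) (gs : GalSys P Q n) (F G : K[X])
    (hFG : IsRat F G d) (z : ℕ → K) (hz : ∀ j, G.eval (z j) ≠ 0 ∧ z (j + 1) = F.eval (z j) / G.eval (z j))
    (i nw : ℕ) (hnw : nw₀ ≤ nw) (H : ℝ) (hH : ∀ j ≤ nw, (ht P (z (i + j)) : ℝ) ≤ H)
    (S : Finset V) (hS1 : 1 ≤ S.card) (hcH : c * H ≤ S.card) (hSe : ∀ v ∈ S, 1 ≤ P.e v)
    (hSg : ∀ v ∈ S, IsGood (P.pl v) d F G) (hint : ∀ v ∈ S, ∀ j, (P.pl v).ge 0 (z j))
    (hdist : ∀ v ∈ S, ∀ a ≤ nw, ∀ b ≤ nw, a ≠ b →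
      z (i + a) ≠ z (i + b) ∧ (P.pl v).o (z (i + a) - z (i + b)) = 0)
    (a₁ a₂ a₃ : ℕ) (h12 : a₁ ≠ a₂) (h13 : a₁ ≠ a₃) (h23 : a₂ ≠ a₃) (hl₁ : l₀ ≤ a₁) (hl₂ : l₀ ≤ a₂)
    (hl₃ : l₀ ≤ a₃) (hu₁ : a₁ ≤ nw) (hu₂ : a₂ ≤ nw) (hu₃ : a₃ ≤ nw)
    (c₁ : ∃ t : k, algebraMap k K t = z (i + a₁)) (c₂ : ∃ t : k, algebraMap k K t = z (i + a₂))
    (c₃ : ∃ t : k, algebraMap k K t = z (i + a₃)),
    ∃ σ ∈ gs.G, (∃ y : K, σ (algebraMap K E y) ≠ algebraMap K E y) ∧
      ∀ j, i + l₀ ≤ j → σ (algebraMap K E (z j)) = algebraMap K E (z j) := by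
  classical
  set n' : ℕ := max n 1 with hn'
  have hn'1 : 1 ≤ n' := le_max_right _ _
  obtain ⟨m, n₀, hM5⟩ := interp d hd (c / (n' * n')) (by positivity)
  obtain ⟨l₀, n₁, hM6⟩ := rigidity d m hd
  refine ⟨l₀, n₀ + n₁ + m + l₀ + 2 * d + 2, ?_⟩
  intro k K E V W _ _ _ _ _ _ _ _ _ P Q hP hQ gs F G hFG z hz i nw hnw H hH S hS1 hcH hSe hSg hint hdist
    a₁ a₂ a₃ h12 h13 h23 hl₁ hl₂ hl₃ hu₁ hu₂ hu₃ c₁ c₂ c₃
  -- choice of places and automorphisms
  have hram : ∀ v : S, ∃ w, gs.res w = v ∧ ∃ σ ∈ gs.G, gs.act σ w = w ∧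
      ∃ y : K, σ (algebraMap K E y) ≠ algebraMap K E y := fun v => gs.ramified v (hSe v v.2)
  choose wv hres sg hsgG hact hne using hram
  -- pigeonhole
  have hG0 : gs.G.Nonempty := by
    obtain ⟨v, hv⟩ := card_pos.mp (by omega : 0 < S.card)
    exact ⟨_, hsgG ⟨v, hv⟩⟩
  have hn1 : 1 ≤ n := (card_pos.mpr hG0).trans_le gs.card_G
  have hnn : n' = n := max_eq_left hn1
  obtain ⟨σ, hσ, hcard⟩ : ∃ σ ∈ gs.G, S.card ≤ n * ((S.attach).filter fun v => sg v = σ).card := by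
    by_contra hcon
    push Not at hcon
    have h1 : (S.attach).card = ∑ σ ∈ gs.G, ((S.attach).filter fun v => sg v = σ).card :=
      card_eq_sum_card_fiberwise fun v _ => hsgG v
    have h2 : n * (S.attach).card < gs.G.card * S.card := by
      rw [h1, mul_sum, ← smul_eq_mul, ← sum_const]
      exact sum_lt_sum_of_nonempty hG0 fun σ hσ => hcon σ hσ
    rw [card_attach] at h2
    exact absurd (Nat.mul_le_mul_right _ gs.card_G) (not_le.mpr h2)
  set Sσ := (S.attach).filter fun v => sg v = σ with hSσ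
  set S' : Finset W := Sσ.image wv with hS'
  have hwinj : ∀ v v' : S, wv v = wv v' → v = v' := by
    intro v v' e
    apply Subtype.ext
    rw [← hres v, ← hres v', e]
  have hS'card : S'.card = Sσ.card := card_image_of_injective _ fun v v' e => hwinj v v' e
  have hSσ1 : 1 ≤ Sσ.card := by
    by_contra h
    have h0 : Sσ.card = 0 := by omega
    rw [h0, mul_zero] at hcard
    omega
  obtain ⟨v₀, hv₀⟩ := card_pos.mp (by omega : 0 < Sσ.card)
  have hv₀σ : sg v₀ = σ := (mem_filter.mp hv₀).2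
  -- the two orbits
  set φ : K →+* E := algebraMap K E with hφ
  set ψ : K →+* E := (σ : E →+* E).comp (algebraMap K E) with hψ
  have hfixk : ∀ t : k, ψ (algebraMap k K t) = φ (algebraMap k K t) := by
    intro t
    change σ (algebraMap K E (algebraMap k K t)) = algebraMap K E (algebraMap k K t)
    rw [← IsScalarTower.algebraMap_apply, AlgEquiv.commutes]
  have horb : Orb F G (fun j => z (i + j)) nw := ⟨fun j _ => (hz _).1, fun j _ => (hz _).2⟩
  have hF1 := hFG.map φ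
  have hF2 := hFG.map ψ
  have horb1 := horb.map φ
  have horb2 := horb.map ψ
  have hres0 := resultant_ne_zero_of_isRat (by omega : 1 ≤ d) hFG
  -- local data at the places of S'
  have hloc : ∀ w ∈ S', ∃ v : V, v ∈ S ∧ Nonempty (VHom φ (P.pl v) (Q.pl w)) ∧
      Nonempty (VHom ψ (P.pl v) (Q.pl w)) := by
    intro w hw
    obtain ⟨v, hv, rfl⟩ := mem_image.mp hw
    have hvσ : sg v = σ := (mem_filter.mp hv).2
    refine ⟨v, v.2, ?_, ?_⟩
    · have := vhomMap gs (wv v)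
      rw [hres v] at this
      exact ⟨this⟩
    · have h1 := hact v
      rw [hvσ] at h1
      have := vhomConj gs hσ h1
      rw [hres v] at this
      exact ⟨this⟩
  have hcong : ∀ w ∈ S', ∀ j, (Q.pl w).ge 0 (φ (z j)) ∧ (Q.pl w).ge 0 (ψ (z j)) ∧
      (Q.pl w).ge 1 (ψ (z j) - φ (z j)) := by
    intro w hw j
    obtain ⟨v, hv, ⟨hφw⟩, ⟨hψw⟩⟩ := hloc w hw
    refine ⟨hφw.ge_zero (hint v hv j), hψw.ge_zero (hint v hv j), ?_⟩
    obtain ⟨t, ht⟩ := (hP v).res (z j) (hint v hv j)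
    have e : ψ (z j) - φ (z j) = ψ (z j - algebraMap k K t) - φ (z j - algebraMap k K t) := by
      rw [map_sub, map_sub, hfixk]
      ring
    rw [e]
    exact DV.ge_sub (hψw.ge_one ht) (hφw.ge_one ht)
  -- heights
  have hH0 : 0 ≤ H := le_trans (by exact_mod_cast ht_nonneg P _) (hH 0 (Nat.zero_le _))
  have hh1 : ∀ j ≤ nw, (ht Q (φ (z (i + j))) : ℝ) ≤ n' * H := by
    intro j hj
    have h1 : ht Q (φ (z (i + j))) ≤ n * ht P (z (i + j)) := ht_map_le gs _
    have h2 : (ht Q (φ (z (i + j))) : ℝ) ≤ n * ht P (z (i + j)) := by exact_mod_cast h1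
    rw [hnn]
    exact h2.trans (mul_le_mul_of_nonneg_left (hH j hj) (Nat.cast_nonneg _))
  have hh2 : ∀ j ≤ nw, (ht Q (ψ (z (i + j))) : ℝ) ≤ n' * H := by
    intro j hj
    have h1 : ht Q (ψ (z (i + j))) = ht Q (φ (z (i + j))) := ht_conj gs hσ _
    rw [h1]
    exact hh1 j hj
  -- M5
  obtain ⟨p, hp0, hpd1, hpd2, hp⟩ := hM5 Q (F.map φ) (G.map φ) (F.map ψ) (G.map ψ) hF1 hF2 nw (by omega)
    (fun j => φ (z (i + j))) (fun j => ψ (z (i + j))) horb1 horb2 (n' * H) hh1 hh2 S' (by omega) (by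
      rw [hS'card]
      have h1 : (S.card : ℝ) ≤ n' * Sσ.card := by rw [hnn]; exact_mod_cast hcard
      have h2 : c * H ≤ n' * Sσ.card := hcH.trans h1
      have h3 : (0 : ℝ) < n' := by exact_mod_cast hn'1
      have e : c / (n' * n') * (n' * H) = c * H / n' := by
        field_simp
      rw [e, div_le_iff₀ h3]
      linarith) (by
      intro w hw
      obtain ⟨v, hv, ⟨hφw⟩, ⟨hψw⟩⟩ := hloc w hw
      exact ⟨hφw.isGood hres0 (hSg v hv), hψw.isGood hres0 (hSg v hv)⟩) (by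
      intro w hw j _
      exact hcong w hw (i + j))
  -- M6 at one place
  set w₀ := wv v₀ with hw₀
  have hw₀S : w₀ ∈ S' := mem_image_of_mem _ hv₀
  obtain ⟨v₁, hv₁, ⟨hφw⟩, ⟨hψw⟩⟩ := hloc w₀ hw₀S
  have hconst : ∀ a, (∃ t : k, algebraMap k K t = z (i + a)) → φ (z (i + a)) = ψ (z (i + a)) := by
    rintro a ⟨t, ht⟩
    rw [← ht, hfixk]
  have hfix := hM6 (Q.pl w₀) (hQ w₀) (F.map φ) (G.map φ) (F.map ψ) (G.map ψ) hF1 hF2
    (hφw.isGood hres0 (hSg v₁ hv₁)) (hψw.isGood hres0 (hSg v₁ hv₁)) nw (nw - m) (by omega) (by omega)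
    (fun j => φ (z (i + j))) (fun j => ψ (z (i + j))) horb1 horb2 (fun j _ => hcong w₀ hw₀S (i + j)) (by
      intro a ha b hb hab
      obtain ⟨h1, h2⟩ := hdist v₁ hv₁ a ha b hb hab
      refine ⟨fun e => h1 (φ.injective e), ?_⟩
      rw [← map_sub]
      exact hφw.o_zero (sub_ne_zero.mpr h1) h2) p hp0 hpd1 hpd2 (fun j hj => hp j (by omega))
    a₁ a₂ a₃ h12 h13 h23 hl₁ hl₂ hl₃ hu₁ hu₂ hu₃ (hconst _ c₁) (hconst _ c₂) (hconst _ c₃)
  -- the two maps agree
  have hinj : ∀ a ≤ nw, ∀ b ≤ nw, z (i + a) = z (i + b) → a = b := by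
    intro a ha b hb e
    by_contra hab
    exact (hdist v₁ hv₁ a ha b hb hab).1 e
  have hagree : F.map ψ * G.map φ = F.map φ * G.map ψ := by
    apply cross_eq_zero_of_agree hF1 hF2 ((Finset.Icc l₀ (nw - 1)).image fun j => φ (z (i + j)))
    · rw [card_image_of_injOn, Nat.card_Icc]
      · omega
      · intro a ha b hb e
        rw [mem_coe, mem_Icc] at ha hb
        exact hinj a (by omega) b (by omega) (φ.injective e)
    · intro y hy
      obtain ⟨j, hj, rfl⟩ := mem_image.mp hy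
      rw [mem_Icc] at hj
      have h1 := hfix j hj.1 (by omega)
      have h2 := hfix (j + 1) (by omega) (by omega)
      change φ (z (i + j)) = ψ (z (i + j)) at h1
      change φ (z (i + (j + 1))) = ψ (z (i + (j + 1))) at h2
      have s1 : φ (z (i + (j + 1))) = (F.map φ).eval (φ (z (i + j))) / (G.map φ).eval (φ (z (i + j))) :=
        horb1.step j (by omega)
      have s2 : ψ (z (i + (j + 1))) = (F.map ψ).eval (ψ (z (i + j))) / (G.map ψ).eval (ψ (z (i + j))) :=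
        horb2.step j (by omega)
      have n1 : (G.map φ).eval (φ (z (i + j))) ≠ 0 := horb1.ne j (by omega)
      have n2 : (G.map ψ).eval (ψ (z (i + j))) ≠ 0 := horb2.ne j (by omega)
      refine ⟨n1, by rw [h1]; exact n2, ?_⟩
      rw [← s1, h2, s2, ← h1]
  have hall : ∀ j, ψ (z (i + l₀ + j)) = φ (z (i + l₀ + j)) := by
    intro j
    induction j with
    | zero => exact (hfix l₀ le_rfl (by omega)).symm
    | succ j ih =>
      have s0 := hz (i + l₀ + j)
      have s1 : φ (z (i + l₀ + (j + 1))) = (F.map φ).eval (φ (z (i + l₀ + j))) /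
          (G.map φ).eval (φ (z (i + l₀ + j))) := by
        rw [← add_assoc, s0.2, map_div₀, eval_map, eval_map, eval₂_at_apply, eval₂_at_apply]
      have s2 : ψ (z (i + l₀ + (j + 1))) = (F.map ψ).eval (ψ (z (i + l₀ + j))) /
          (G.map ψ).eval (ψ (z (i + l₀ + j))) := by
        rw [← add_assoc, s0.2, map_div₀, eval_map, eval_map, eval₂_at_apply, eval₂_at_apply]
      have n1 : (G.map φ).eval (φ (z (i + l₀ + j))) ≠ 0 := by
        rw [eval_map, eval₂_at_apply, Ne, map_eq_zero]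
        exact s0.1
      have n2 : (G.map ψ).eval (ψ (z (i + l₀ + j))) ≠ 0 := by
        rw [eval_map, eval₂_at_apply, Ne, map_eq_zero]
        exact s0.1
      rw [s1, s2, ih]
      rw [ih] at n2
      rw [div_eq_div_iff n2 n1, ← eval_mul, ← eval_mul, hagree]
  refine ⟨σ, hσ, ?_, ?_⟩
  · have := hne v₀
    rwa [hv₀σ] at this
  · intro j hj
    have := hall (j - (i + l₀))
    rw [show i + l₀ + (j - (i + l₀)) = j by omega] at this
    exact this

end Pool.Agent.Helper33.PS
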