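import Pool.Agent.Helper33.PS.Defs
import Pool.Agent.Helper33.UB.Inst

/-!
# Plan S: heights
-/

set_option autoImplicit false

open Finset Polynomial

namespace Pool.Agent.Helper33.PS

open Pool.Agent.Helper33.UB

section basic

variable {k K V : Type*} [Field k] [Field K] [Algebra k K] (P : PSys k K V)

lemma neg_nonneg (v : DV K) (x : K) : 0 ≤ neg v x := by
  unfold neg
  split_ifs
  · exact le_rfl
  · exact le_max_left _ _

lemma neg_zero (v : DV K) : neg v 0 = 0 := by
  unfold neg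
  rw [if_pos rfl]

lemma neg_of_ne (v : DV K) {x : K} (hx : x ≠ 0) : neg v x = max 0 (-(v.o x)) := by
  unfold neg
  rw [if_neg hx]

lemma neg_eq_zero_of_ge {v : DV K} {x : K} (h : v.ge 0 x) : neg v x = 0 := by
  by_cases hx : x = 0
  · rw [hx, neg_zero]
  rw [neg_of_ne v hx]
  have h1 := DV.ge_le h hx
  have h2 : 0 ≤ v.o x := by exact_mod_cast h1
  omega

lemma neg_support (x : K) : (Function.support fun v => neg (P.pl v) x).Finite := by
  by_cases hx : x = 0
  · have : (Function.support fun v => neg (P.pl v) x) = ∅ := by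
      rw [Function.support_eq_empty_iff]
      funext v
      rw [hx, neg_zero]; rfl
    rw [this]
    exact Set.finite_empty
  · refine (P.ord_finite x hx).subset ?_
    intro v hv hv0
    apply hv
    change neg (P.pl v) x = 0
    rw [neg_of_ne _ hx, hv0]
    simp

lemma ht_nonneg (x : K) : 0 ≤ ht P x := finsum_nonneg fun v => neg_nonneg _ _

lemma ht_eq_sum (x : K) (T : Finset V) (hT : ∀ v, v ∉ T → neg (P.pl v) x = 0) :
    ht P x = ∑ v ∈ T, neg (P.pl v) x := by
  unfold ht
  apply finsum_eq_sum_of_support_subset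
  intro v hv
  by_contra h
  exact hv (hT v h)

lemma ht_const (hconst : ∀ v, ∀ c : k, c ≠ 0 → (P.pl v).o (algebraMap k K c) = 0) (c : k) :
    ht P (algebraMap k K c) = 0 := by
  rw [ht_eq_sum P _ ∅ ?_, sum_empty]
  intro v _
  by_cases hc : c = 0
  · rw [hc, map_zero, neg_zero]
  · rw [neg_of_ne _ (by rw [Ne, map_eq_zero]; exact hc), hconst v c hc]
    simp

end basic

/-- the cross ratio coordinate -/
noncomputable def cr {K : Type*} [Field K] (a b c y : K) : K :=
  (y - a) * (c - b) / ((y - b) * (c - a))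

section inst

variable {k K V : Type*} [Field k] [Field K] [Algebra k K] [DecidableEq K] {P : PSys k K V}
  {c : GConst} {N : ℕ} {M : ℝ} (I : GInst P c N M)

/-- height of a cross ratio of orbit points -/
theorem ht_cr_le {α β γ j : ℕ} (hα : α ≤ N) (hβ : β ≤ N) (hγ : γ ≤ N) (hj : j ≤ N) (hαγ : α ≠ γ)
    (hβγ : β ≠ γ) (hjβ : j ≠ β) :
    (ht P (cr (I.x α) (I.x β) (I.x γ) (I.x j)) : ℝ) ≤ 4 * c.C1 * I.h := by
  have hC1 := c.hC1
  have hh := I.h_nonneg
  by_cases hjα : j = α
  · have : cr (I.x α) (I.x β) (I.x γ) (I.x j) = 0 := by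
      unfold cr
      rw [hjα, sub_self, zero_mul, zero_div]
    rw [this]
    have h0 : ht P (0 : K) = 0 := by
      rw [ht_eq_sum P 0 ∅ fun v _ => neg_zero _, sum_empty]
    rw [h0]
    push_cast
    positivity
  have hne : ∀ a b, a ≤ N → b ≤ N → a ≠ b → I.x a - I.x b ≠ 0 := fun a b ha hb hab =>
    sub_ne_zero.mpr fun e => hab (I.inj a b ha hb e)
  have n1 := hne j α hj hα hjα
  have n2 := hne γ β hγ hβ hβγ.symm
  have n3 := hne j β hj hβ hjβ
  have n4 := hne γ α hγ hα hαγ.symm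
  have ho : ∀ v, (P.pl v).o (cr (I.x α) (I.x β) (I.x γ) (I.x j)) =
      (P.pl v).o (I.x j - I.x α) + (P.pl v).o (I.x γ - I.x β) -
        ((P.pl v).o (I.x j - I.x β) + (P.pl v).o (I.x γ - I.x α)) := by
    intro v
    unfold cr
    rw [DV.o_div _ _ _ (mul_ne_zero n1 n2) (mul_ne_zero n3 n4), (P.pl v).mul _ _ n1 n2,
      (P.pl v).mul _ _ n3 n4]
  have hcr : cr (I.x α) (I.x β) (I.x γ) (I.x j) ≠ 0 :=
    div_ne_zero (mul_ne_zero n1 n2) (mul_ne_zero n3 n4)
  rw [ht_eq_sum P _ I.T (by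
    intro v hv
    rw [neg_of_ne _ hcr, ho v, I.Tx v hv j α hj hα hjα, I.Tx v hv γ β hγ hβ hβγ.symm,
      I.Tx v hv j β hj hβ hjβ, I.Tx v hv γ α hγ hα hαγ.symm]
    norm_num)]
  push_cast
  have key : ∀ v ∈ I.T, (neg (P.pl v) (cr (I.x α) (I.x β) (I.x γ) (I.x j)) : ℝ) ≤
      max 0 (I.g v j β) + max 0 (I.g v γ α) + 2 * c.C1 * I.ε v := by
    intro v hv
    have l1 := I.lower v hv j α hj hα hjα
    have l2 := I.lower v hv γ β hγ hβ hβγ.symm
    have hε := I.ε_nonneg v hv
    have m1 := le_max_left 0 (I.g v j β)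
    have m2 := le_max_right 0 (I.g v j β)
    have m3 := le_max_left 0 (I.g v γ α)
    have m4 := le_max_right 0 (I.g v γ α)
    rw [neg_of_ne _ hcr, ho v]
    push_cast
    apply max_le
    · positivity
    · unfold GInst.g at m2 m4 ⊢
      linarith
  calc ∑ v ∈ I.T, (neg (P.pl v) (cr (I.x α) (I.x β) (I.x γ) (I.x j)) : ℝ)
      ≤ ∑ v ∈ I.T, (max 0 (I.g v j β) + max 0 (I.g v γ α) + 2 * c.C1 * I.ε v) := sum_le_sum key
    _ = ∑ v ∈ I.T, max 0 (I.g v j β) + ∑ v ∈ I.T, max 0 (I.g v γ α) + 2 * c.C1 * I.h := by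
        rw [sum_add_distrib, sum_add_distrib, ← mul_sum]; rfl
    _ ≤ c.C1 * I.h + c.C1 * I.h + 2 * c.C1 * I.h := by
        have h1 := I.sum_g_pos hj hβ hjβ
        have h2 := I.sum_g_pos hγ hα hαγ.symm
        linarith
    _ = 4 * c.C1 * I.h := by ring

end inst

section gal

variable {k K E V W : Type*} [Field k] [Field K] [Field E] [Algebra k K] [Algebra k E] [Algebra K E]
  [IsScalarTower k K E] {P : PSys k K V} {Q : PSys k E W} {n : ℕ} (gs : GalSys P Q n)

include gs

lemma neg_map (w : W) (y : K) :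
    neg (Q.pl w) (algebraMap K E y) = gs.ram w * neg (P.pl (gs.res w)) y := by
  by_cases hy : y = 0
  · rw [hy, map_zero, neg_zero, neg_zero, mul_zero]
  · rw [neg_of_ne _ (by rw [Ne, map_eq_zero]; exact hy), neg_of_ne _ hy, gs.ram_spec w y hy]
    have h := gs.ram_pos w
    rw [mul_max_of_nonneg _ _ (by positivity), mul_zero, mul_neg]

/-- heights in the extension -/
theorem ht_map_le (z : K) : ht Q (algebraMap K E z) ≤ n * ht P z := by
  classical
  set T := (neg_support P z).toFinset with hT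
  set T' := (neg_support Q (algebraMap K E z)).toFinset with hT'
  have h1 : ht Q (algebraMap K E z) = ∑ w ∈ T', neg (Q.pl w) (algebraMap K E z) := by
    apply ht_eq_sum
    intro v hv
    by_contra h
    exact hv (by rw [hT', Set.Finite.mem_toFinset]; exact h)
  have h2 : ht P z = ∑ v ∈ T, neg (P.pl v) z := by
    apply ht_eq_sum
    intro v hv
    by_contra h
    exact hv (by rw [hT, Set.Finite.mem_toFinset]; exact h)
  have hmaps : ∀ w ∈ T', gs.res w ∈ T := by
    intro w hw
    rw [hT', Set.Finite.mem_toFinset] at hw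
    rw [hT, Set.Finite.mem_toFinset]
    intro h0
    apply hw
    change neg (P.pl (gs.res w)) z = 0 at h0
    change neg (Q.pl w) (algebraMap K E z) = 0
    rw [neg_map gs, h0, mul_zero]
  rw [h1, h2, ← sum_fiberwise_of_maps_to hmaps, mul_sum]
  apply sum_le_sum
  intro v hv
  have h3 : ∑ w ∈ T'.filter (fun w => gs.res w = v), neg (Q.pl w) (algebraMap K E z) =
      (∑ w ∈ T'.filter (fun w => gs.res w = v), gs.ram w : ℕ) * neg (P.pl v) z := by
    push_cast
    rw [sum_mul]
    apply sum_congr rfl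
    intro w hw
    rw [neg_map gs, (mem_filter.mp hw).2]
  rw [h3]
  have h4 := gs.fib v (T'.filter (fun w => gs.res w = v)) (fun w hw => (mem_filter.mp hw).2)
  have h5 : ((∑ w ∈ T'.filter (fun w => gs.res w = v), gs.ram w : ℕ) : ℤ) ≤ n := by exact_mod_cast h4
  exact mul_le_mul_of_nonneg_right h5 (neg_nonneg _ _)

/-- heights of conjugates -/
theorem ht_conj {σ : E ≃ₐ[k] E} (hσ : σ ∈ gs.G) (y : E) : ht Q (σ y) = ht Q y := by
  unfold ht
  rw [← finsum_comp_equiv (gs.act σ)]
  apply finsum_congr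
  intro w
  by_cases hy : y = 0
  · rw [hy, map_zero, neg_zero, neg_zero]
  · rw [neg_of_ne _ hy, neg_of_ne _ (by rw [Ne, map_eq_zero_iff σ σ.injective]; exact hy),
      gs.act_spec σ hσ]

end gal

end Pool.Agent.Helper33.PS
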