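import Pool.Agent.Helper33.PS.Fix
import Pool.Agent.Helper33.PS.BlockDir
import Pool.Agent.Helper33.UB.GFinal
import Pool.Agent.Helper93.RatIso

/-!
# Plan S: the abstract theorem
-/

set_option autoImplicit false

open Finset Polynomial

namespace Pool.Agent.Helper33.PS

open Pool.Agent.Helper33.UB Pool.Agent.Helper51.RatTree Pool.Agent.Helper55.RD
  Pool.Agent.Helper93.RatODE Pool.Agent.Helper45.FR

section zero

variable {k K V : Type} [Field k] [Field K] [Algebra k K] [DecidableEq K] {P : PSys k K V}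
  {F G : K[X]} {x : ℕ → K} {N d : ℕ}

/-- no badness: the map is constant -/
theorem conj_of_h {c : GConst} {M : ℝ} (hx : RatOrbit F G x N) (hd : 2 ≤ d) (hFG : IsRat F G d)
    (hN : 2 * d + 1 ≤ N) (I : GInst P c N M) (hI : I.x = x) (h0 : I.h = 0) : ConstConj k F G d := by
  subst hI
  apply exists_conj_of_cross (by omega) hFG.cop hFG.dA hFG.dB hFG.top I.x
    (fun i _ => ⟨hx.ne i, hx.step i⟩) (fun i hi j hj => hx.inj i j (by omega) (by omega))
  intro i hi
  by_cases h0' : i = 0
  · exact ⟨0, by subst h0'; simp⟩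
  by_cases h1 : i = 1
  · refine ⟨1, ?_⟩
    subst h1
    have m1 : I.x 1 - I.x 2 ≠ 0 := sub_ne_zero.mpr fun e => by
      have := hx.inj 1 2 (by omega) (by omega) e; omega
    have m2 : I.x 1 - I.x 0 ≠ 0 := sub_ne_zero.mpr fun e => by
      have := hx.inj 1 0 (by omega) (by omega) e; omega
    rw [map_one]
    field_simp
  by_cases h2 : i = 2
  · exact ⟨0, by subst h2; simp⟩
  · exact I.cross_const h0 (i := i) (j := 1) (l := 0) (m := 2) (by omega) (by omega) (by omega)
      (by omega) (by omega) (by omega) (by omega) (by omega)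

end zero

/-- **Plan S, abstract form.** -/
theorem absS (d n : ℕ) (hd : 2 ≤ d) : ∃ N : ℕ,
    ∀ {k K E V W : Type} [Field k] [IsAlgClosed k] [CharZero k] [Field K] [Field E] [Algebra k K]
    [Algebra k E] [Algebra K E] [IsScalarTower k K E] (P : PSys k K V) (Q : PSys k E W)
    (_ : ∀ v, ResK k (P.pl v)) (_ : ∀ w, ResK k (Q.pl w))
    (_ : ∀ y, P.D y = 0 → ∃ c : k, algebraMap k K c = y) (gs : GalSys P Q n) (F G : K[X])
    (_ : IsRat F G d) (x : ℕ → K) (_ : RatOrbit F G x N)
    (_ : ∀ σ ∈ gs.G, (∀ i j l m, N ≤ i → N ≤ j → N ≤ l → N ≤ m →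
      σ (algebraMap K E (cr (x i) (x j) (x l) (x m))) = algebraMap K E (cr (x i) (x j) (x l) (x m))) →
      ∀ y : K, σ (algebraMap K E y) = algebraMap K E y), ConstConj k F G d := by
  classical
  set c0 : ℝ := (ratConst d hd).c0 with hc0def
  have hc0 : 0 < c0 := (ratConst d hd).hc0
  set n' : ℕ := max n 1 with hn'
  have hn'1 : (1 : ℝ) ≤ n' := by exact_mod_cast le_max_right n 1
  have hn'0 : (0 : ℝ) < n' := by linarith
  obtain ⟨l₀, nw₀, hfix⟩ := fix_of_places d n hd (c0 / (128 * n')) (by positivity)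
  set κE : ℝ := c0 / (512 * n') with hκE
  have hκE0 : 0 < κE := by positivity
  -- energy constants
  have hE : ∀ J : ℕ, ∃ nE : ℕ, 1 ≤ J → ∀ {k K V : Type} [Field k] [Field K] [Algebra k K]
      (P : PSys k K V) (A B : K[X]),
      IsRat A B (d ^ J) → ∀ z : ℕ → K, Orb A B z nE → (∀ i ≤ nE, ∀ j ≤ nE, z i = z j → i = j) →
      ∀ H : ℝ, (∀ i ≤ nE, (ht P (z i) : ℝ) ≤ H) →
      ∀ S : Finset V, (∀ v ∈ S, ∀ i ≤ nE, (P.pl v).ge 0 (z i)) →
      (∀ v ∈ S, ∀ i ≤ nE, ∀ j ≤ nE, i ≠ j → (P.pl v).o (z i - z j) = 0) →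
      (∀ v ∈ S, ¬ IsGood (P.pl v) (d ^ J) A B) → (S.card : ℝ) ≤ κE * H := by
    intro J
    by_cases hJ : 1 ≤ J
    · obtain ⟨nE, h⟩ := energy (d ^ J) (hd.trans (Nat.le_self_pow (by omega) d)) κE hκE0
      exact ⟨nE, fun _ => h⟩
    · exact ⟨0, fun h => absurd h hJ⟩
  choose nE hnE using hE
  set nw : ℕ → ℕ := fun J => nw₀ + (l₀ + 2) * J with hnw
  set Fn : ℕ → ℕ := fun J => 2 * nw J + 2 + nE J + l₀ + 3 with hFn
  set κ₀ : ℝ := c0 / (128 * n') with hκ₀
  have hκ₀0 : 0 < κ₀ := by positivity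
  set M : ℝ := 1 / κ₀ + 640 * n' with hM
  have hM0 : 0 < M := by positivity
  obtain ⟨N₁, hsel⟩ := selection (ratConst d hd) M hM0 κ₀ hκ₀0 Fn
  refine ⟨max N₁ (2 * d + 1), ?_⟩
  set N := max N₁ (2 * d + 1) with hN
  intro k K E V W _ _ _ _ _ _ _ _ _ P Q hP hQ hker gs F G hFG x hxN hgen
  have hx : RatOrbit F G x N₁ := ⟨hxN.ne, hxN.step, fun i j hi hj =>
    hxN.inj i j (hi.trans (le_max_left _ _)) (hj.trans (le_max_left _ _)), hxN.fin⟩
  have hcop := hFG.cop
  have hF := hFG.dA
  have hG := hFG.dB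
  have htop := hFG.top
  have hres : resultant F G d d ≠ 0 := resultant_ne_zero_of_isRat (by omega) hFG
  obtain ⟨T, hT⟩ := exists_radm P (d := d) hres (rX hx) (fun y hy => (rX_spec hx y hy).1)
  have hconst := fun v (c : k) (hc : c ≠ 0) => (hP v).const c hc
  set I := ratInst (P := P) hx hd hcop hF hG htop hres M T hT hker hconst with hIdef
  by_cases hh0 : I.h ≤ 0
  · -- the constant case
    exact conj_of_h hxN hd hFG (le_max_right _ _)
      (ratInst (P := P) hxN hd hcop hF hG htop hres M T hT hker hconst) rfl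
      (le_antisymm hh0 I.h_nonneg)
  exfalso
  push Not at hh0
  obtain ⟨B⟩ := (hsel P I).resolve_left (not_le.mpr hh0)
  set J := B.J with hJdef
  set N' := B.N' with hN'def
  set i := B.i with hidef
  have hJ : 1 ≤ J := B.hJ
  have hN' : Fn J ≤ N' := B.hN'
  have hFnJ : Fn J = 2 * nw J + 2 + nE J + l₀ + 3 := rfl
  have hnwJ : nw J = nw₀ + (l₀ + 2) * J := rfl
  have hle : i + N' * J ≤ N₁ := B.le
  have hidx : ∀ l, l ≤ N' → i + l * J ≤ N₁ := fun l hl => le_trans (by gcongr) hle
  -- estimates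
  set h := I.h with hh
  set E' : ℝ := (P.E : ℝ) with hE'
  have hloss : (B.Loss.card : ℝ) ≤ c0 * h / (64 * n') := by
    have h1 := B.loss
    have h2 : h / M ≤ κ₀ * h := by
      rw [div_le_iff₀ hM0]
      have : 1 ≤ κ₀ * M := by
        rw [hM, mul_add, mul_one_div_cancel hκ₀0.ne']
        have : 0 ≤ κ₀ * (640 * n') := by positivity
        linarith
      nlinarith
    have h3 : κ₀ * h + κ₀ * h = c0 * h / (64 * n') := by
      rw [hκ₀]; field_simp; ring
    linarith
  have ham : c0 / 2 * h + M / 10 * B.Hg.card ≤ 2 * (B.Loss.card + E') := B.am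
  have hq : c0 * h / (64 * n') ≤ c0 * h / 64 := by
    apply div_le_div_of_nonneg_left (by positivity) (by norm_num)
    linarith
  have hHg0 : (0 : ℝ) ≤ B.Hg.card := Nat.cast_nonneg _
  have hE5 : c0 * h ≤ 5 * E' := by
    have : 0 ≤ M / 10 * (B.Hg.card : ℝ) := by positivity
    linarith
  have hE0 : 0 < E' := by
    have : 0 < c0 * h := by positivity
    linarith
  have hHg : (B.Hg.card : ℝ) ≤ E' / (16 * n') := by
    have h1 : M / 10 * (B.Hg.card : ℝ) ≤ 3 * E' := by
      have : 0 ≤ c0 / 2 * h := by positivity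
      linarith
    have h2 : 64 * n' * (B.Hg.card : ℝ) ≤ M / 10 * B.Hg.card := by
      apply mul_le_mul_of_nonneg_right _ hHg0
      rw [hM]
      have : 0 < 1 / κ₀ := by positivity
      linarith
    rw [le_div_iff₀ (by positivity)]
    linarith
  have hLoss : (B.Loss.card : ℝ) ≤ 5 * E' / (64 * n') := by
    refine hloss.trans ?_
    gcongr
  -- the places
  set S₀ := T.filter fun v => v ∉ B.Hg ∧ v ∉ B.Loss with hS₀
  have hdir : ∀ v ∈ S₀, ∃ ζ : PV (P.pl v), ∀ l l', l ≤ N' → l' ≤ N' → l ≠ l' →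
      ζ.dir (x (i + l * J)) ≠ ζ.dir (x (i + l' * J)) := by
    intro v hv
    obtain ⟨hvT, hv1, hv2⟩ := mem_filter.mp hv
    exact exists_dir hx hd hcop hF hG htop hres M T hT hker hconst hJ hle (B.star v hvT hv1 hv2)
  -- coordinates
  set 𝒥 : Finset ℕ := (range (N' + 1)).image fun l => i + l * J with h𝒥
  have hmem : ∀ l, l ≤ N' → i + l * J ∈ 𝒥 := fun l hl =>
    mem_image_of_mem _ (mem_range.mpr (by omega))
  have hJne : ∀ l l', l ≠ l' → i + l * J ≠ i + l' * J := by
    intro l l' hne e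
    exact hne (Nat.eq_of_mul_eq_mul_right (by omega : 0 < J) (by omega))
  obtain ⟨F', G', z, a, b, c, e, hdet, hden, hzx, hFG', hzN, hcα, hcβ, hcγ, hzint, hzdist, hht⟩ :=
    exists_coord P hP hFG hx 𝒥 (hmem l₀ (by omega)) (hmem (l₀ + 1) (by omega))
      (hmem (l₀ + 2) (by omega)) (hJne _ _ (by omega)) (hJne _ _ (by omega)) (hJne _ _ (by omega))
      (by
        intro j hj
        obtain ⟨l, hl, rfl⟩ := mem_image.mp hj
        exact hidx l (by have := mem_range.mp hl; omega)) S₀ (by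
        intro v hv
        obtain ⟨ζ, hζ⟩ := hdir v hv
        refine ⟨ζ, ?_⟩
        intro j hj j' hj' hne
        obtain ⟨l, hl, rfl⟩ := mem_image.mp hj
        obtain ⟨l', hl', rfl⟩ := mem_image.mp hj'
        exact hζ l l' (by have := mem_range.mp hl; omega) (by have := mem_range.mp hl'; omega)
          (fun e => hne (by rw [e])))
  -- heights
  have hheight : ∀ j ≤ N₁, (ht P (z j) : ℝ) ≤ 8 * h := by
    intro j hj
    by_cases hjβ : j = i + (l₀ + 1) * J
    · obtain ⟨t, ht'⟩ := hcβ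
      rw [hjβ, ← ht', ht_const P (fun v c hc => hconst v c hc)]
      push_cast
      positivity
    · have hne : x j ≠ x (i + (l₀ + 1) * J) := fun e =>
        hjβ (hx.inj _ _ hj (hidx _ (by omega)) e)
      have h1 := hht j hne
      have h2 := ht_cr_le I (hidx l₀ (by omega)) (hidx (l₀ + 1) (by omega)) (hidx (l₀ + 2) (by omega)) hj
        (hJne _ _ (by omega)) (hJne _ _ (by omega)) hjβ
      have h3 : (ht P (z j) : ℝ) ≤ ht P (cr (x (i + l₀ * J)) (x (i + (l₀ + 1) * J))
        (x (i + (l₀ + 2) * J)) (x j)) := by exact_mod_cast h1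
      have h4 : 4 * (ratConst d hd).C1 * I.h = 8 * h := by
        change 4 * (2 : ℝ) * h = 8 * h
        ring
      rw [h4] at h2
      exact h3.trans h2
  -- the iterate
  obtain ⟨U, W', hUW, hU, hW, hUWtop, -, hit⟩ := exists_iterate hFG'.cop hFG'.dA hFG'.dB (by
      rcases hmax_of_top hFG'.dA hFG'.dB hFG'.top with h3 | h3
      · have := hFG'.dB; omega
      · have := hFG'.dA; omega) (by omega : 1 ≤ d) J
  have hRat : IsRat U W' (d ^ J) := ⟨hUW, hU, hW, hUWtop⟩
  set Sbad := S₀.filter fun v => ¬ IsGood (P.pl v) (d ^ J) U W' with hSbad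
  have hstep := hit z
  have hit1 : ∀ l, W'.eval (z (i + l * J)) ≠ 0 ∧
      U.eval (z (i + l * J)) / W'.eval (z (i + l * J)) = z (i + (l + 1) * J) := by
    intro l
    have h1 := hstep (i + l * J) (fun j _ => ⟨hzN.ne _, hzN.step _⟩)
    rw [show i + (l + 1) * J = i + l * J + J by ring]
    exact h1
  have hbad : (Sbad.card : ℝ) ≤ κE * (8 * h) := by
    apply hnE J hJ P U W' hRat (fun l => z (i + l * J))
      ⟨fun l _ => (hit1 l).1, fun l _ => ((hit1 l).2).symm⟩
    · intro l hl l' hl' e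
      by_contra hne
      exact hJne l l' hne (hzN.inj _ _ (hidx l (by omega)) (hidx l' (by omega)) e)
    · intro l hl
      exact hheight _ (hidx l (by omega))
    · intro v hv l _
      exact hzint v (mem_filter.mp hv).1 _
    · intro v hv l hl l' hl' hne
      exact hzdist v (mem_filter.mp hv).1 _ (hmem l (by omega)) _ (hmem l' (by omega)) (hJne l l' hne)
    · intro v hv
      exact (mem_filter.mp hv).2
  have hbad' : (Sbad.card : ℝ) ≤ 5 * E' / (64 * n') := by
    refine hbad.trans ?_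
    have : κE * (8 * h) = c0 * h / (64 * n') := by
      rw [hκE]; field_simp; ring
    rw [this]
    gcongr
  -- the ramified places
  set R := T.filter fun v => 1 ≤ P.e v with hR
  set S₁ := R.filter fun v => v ∈ S₀ ∧ v ∉ Sbad with hS₁
  have hRcard : E' ≤ n' * R.card := by
    have h1 : P.E = ∑ v ∈ R, P.e v := by
      unfold PSys.E
      apply sum_congr _ fun _ _ => rfl
      ext v
      rw [Set.Finite.mem_toFinset, hR, mem_filter, Set.mem_ofPred_eq]
      constructor
      · intro hv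
        refine ⟨?_, by omega⟩
        by_contra hvT
        exact hv (hT.e v hvT)
      · rintro ⟨_, hv⟩
        omega
    have h2 : ∑ v ∈ R, P.e v ≤ R.card * n := by
      rw [← smul_eq_mul, ← sum_const]
      exact sum_le_sum fun v _ => gs.e_le v
    have h3 : (P.E : ℝ) ≤ R.card * n := by rw [h1]; exact_mod_cast h2
    have h4 : (n : ℝ) ≤ n' := by exact_mod_cast le_max_left n 1
    calc E' ≤ R.card * n := h3
      _ ≤ R.card * n' := mul_le_mul_of_nonneg_left h4 (Nat.cast_nonneg _)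
      _ = n' * R.card := mul_comm _ _
  have hcover : R.card ≤ S₁.card + (B.Hg.card + B.Loss.card + Sbad.card) := by
    have h1 : R ⊆ S₁ ∪ ((B.Hg ∪ B.Loss) ∪ Sbad) := by
      intro v hv
      by_cases h2 : v ∈ S₁
      · exact mem_union_left _ h2
      apply mem_union_right
      by_contra h3
      rw [mem_union, mem_union, not_or, not_or] at h3
      apply h2
      refine mem_filter.mpr ⟨hv, mem_filter.mpr ⟨(mem_filter.mp hv).1, h3.1.1, h3.1.2⟩, h3.2⟩
    refine (card_le_card h1).trans ((card_union_le _ _).trans ?_)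
    have h4 := card_union_le (B.Hg ∪ B.Loss) Sbad
    have h5 := card_union_le B.Hg B.Loss
    omega
  have hS₁ge : 3 * E' / (4 * n') ≤ S₁.card := by
    have h1 : (R.card : ℝ) ≤ S₁.card + (B.Hg.card + B.Loss.card + Sbad.card) := by
      exact_mod_cast hcover
    have h2 : E' / n' ≤ R.card := by
      rw [div_le_iff₀ hn'0, mul_comm]; exact hRcard
    have h3 : E' / n' - (E' / (16 * n') + 5 * E' / (64 * n') + 5 * E' / (64 * n')) ≤ S₁.card := by
      linarith
    have h4 : E' / n' - (E' / (16 * n') + 5 * E' / (64 * n') + 5 * E' / (64 * n')) =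
        25 * E' / (32 * n') := by
      field_simp; ring
    have h5 : 3 * E' / (4 * n') ≤ 25 * E' / (32 * n') := by
      rw [div_le_div_iff₀ (by positivity) (by positivity)]
      nlinarith [mul_pos hE0 hn'0]
    linarith
  have hS₁1 : 1 ≤ S₁.card := by
    have h1 : (0 : ℝ) < S₁.card := lt_of_lt_of_le (by positivity) hS₁ge
    exact_mod_cast h1
  -- good reduction
  have hgood : ∀ v ∈ S₁, IsGood (P.pl v) d F' G' := by
    intro v hv
    obtain ⟨hv1, hv2, hv3⟩ := mem_filter.mp hv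
    have h1 : IsGood (P.pl v) (d ^ J) U W' := by
      by_contra h
      exact hv3 (mem_filter.mpr ⟨hv2, h⟩)
    refine isGood_of_iterate (P.pl v) (hP v) hd hJ hFG' hRat ?_ h1
    intro y hy
    have h2 := hit y 0 (fun j hj => by
      rw [zero_add]
      exact ⟨hy.ne j hj, hy.step j hj⟩)
    rw [zero_add] at h2
    exact h2
  -- the window
  have hwin : ∀ v ∈ S₁, ∀ a ≤ nw J, ∀ b ≤ nw J, a ≠ b →
      z (i + a) ≠ z (i + b) ∧ (P.pl v).o (z (i + a) - z (i + b)) = 0 := by
    intro v hv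
    obtain ⟨hv1, hv2, hv3⟩ := mem_filter.mp hv
    exact window_distinct (P.pl v) (by omega : 1 ≤ d) hFG' (hgood v hv) (z := fun j => z (i + j))
      (n := N' * J) (J := J) (N' := N') hJ le_rfl ⟨fun j _ => hzN.ne _, fun j _ => hzN.step _⟩
      (fun j _ => hzint v hv2 _) (by
        intro l hl l' hl' hne
        refine ⟨fun e => hJne l l' hne (hzN.inj _ _ (hidx l hl) (hidx l' hl') e), ?_⟩
        exact hzdist v hv2 _ (hmem l hl) _ (hmem l' hl') (hJne l l' hne)) (by omega)
  have hlJ : ∀ q, l₀ ≤ q → l₀ ≤ q * J := fun q hq => hq.trans (Nat.le_mul_of_pos_right _ (by omega))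
  have huJ : ∀ q, q ≤ l₀ + 2 → q * J ≤ nw J := fun q hq => by
    have : q * J ≤ (l₀ + 2) * J := Nat.mul_le_mul_right _ hq
    omega
  have hqne : ∀ q q', q ≠ q' → q * J ≠ q' * J := fun q q' hne e =>
    hne (Nat.eq_of_mul_eq_mul_right (by omega : 0 < J) e)
  obtain ⟨σ, hσ, ⟨y, hy⟩, hfixz⟩ := hfix P Q hP hQ gs F' G' hFG' z (fun j => ⟨hzN.ne j, hzN.step j⟩)
    i (nw J) (by omega) (8 * h) (fun j hj => hheight _ (by
      have h1 : nw J ≤ N' * J := by
        have : nw J ≤ N' := by omega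
        exact this.trans (Nat.le_mul_of_pos_right _ (by omega))
      omega)) S₁ hS₁1 (by
      refine le_trans ?_ hS₁ge
      have h1 : c0 / (128 * n') * (8 * h) = c0 * h / (16 * n') := by field_simp; ring
      rw [h1]
      calc c0 * h / (16 * n') ≤ 5 * E' / (16 * n') := by gcongr
        _ ≤ 3 * E' / (4 * n') := by
          rw [div_le_div_iff₀ (by positivity) (by positivity)]
          nlinarith [mul_pos hE0 hn'0]) (fun v hv => (mem_filter.mp (mem_filter.mp hv).1).2) hgood
      (fun v hv j => hzint v (mem_filter.mp hv).2.1 j) hwin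
      (l₀ * J) ((l₀ + 1) * J) ((l₀ + 2) * J) (hqne _ _ (by omega)) (hqne _ _ (by omega))
      (hqne _ _ (by omega)) (hlJ _ le_rfl) (hlJ _ (by omega)) (hlJ _ (by omega)) (huJ _ (by omega))
      (huJ _ (by omega)) (huJ _ le_rfl) hcα hcβ hcγ
  apply hy
  apply hgen σ hσ
  intro i₁ i₂ i₃ i₄ h1 h2 h3 h4
  have hilN : i + l₀ ≤ N := by
    have h5 : i + l₀ ≤ N₁ := by
      have h6 : l₀ ≤ N' * J := by
        have : l₀ ≤ N' := by omega
        exact this.trans (Nat.le_mul_of_pos_right _ (by omega))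
      omega
    exact h5.trans (le_max_left _ _)
  have hcr := cr_mobius hdet ![x i₁, x i₂, x i₃, x i₄] ![z i₁, z i₂, z i₃, z i₄]
    (by
      intro q
      fin_cases q
      · exact hden i₁
      · exact hden i₂
      · exact hden i₃
      · exact hden i₄) (by
      intro q
      fin_cases q
      · exact hzx i₁
      · exact hzx i₂
      · exact hzx i₃
      · exact hzx i₄)
  change cr (z i₁) (z i₂) (z i₃) (z i₄) = cr (x i₁) (x i₂) (x i₃) (x i₄) at hcr
  rw [← hcr]
  have f1 := hfixz i₁ (by omega)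
  have f2 := hfixz i₂ (by omega)
  have f3 := hfixz i₃ (by omega)
  have f4 := hfixz i₄ (by omega)
  unfold cr
  simp only [map_div₀, map_mul, map_sub, f1, f2, f3, f4]

end Pool.Agent.Helper33.PS
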