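import Pool.Agent.Helper33.PS.Defs
import Pool.Agent.Helper33.PS.Heights
import Pool.Agent.Helper33.PS.Ext
import Pool.Agent.Helper98.PS.M2
import Pool.Agent.Helper98.PS.M5
import Pool.Agent.Helper82.PS.IterGood
import Pool.Agent.Helper82.PS.Window
import Pool.Agent.Helper36.PS.Rigidity
import Pool.Agent.Helper35.PS.Coord

/-!
# Plan S: the modules
-/

set_option autoImplicit false

open Finset Polynomial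

namespace Pool.Agent.Helper33.PS

open Pool.Agent.Helper45.FR Pool.Agent.Helper33.UB Pool.Agent.Helper51.RatTree Pool.Agent.Helper93.RatODE

theorem energy (δ : ℕ) (hδ : 2 ≤ δ) (κ : ℝ) (hκ : 0 < κ) : ∃ n : ℕ,
    ∀ {k K V : Type} [Field k] [Field K] [Algebra k K] (P : PSys k K V) (A B : K[X]),
    IsRat A B δ → ∀ z : ℕ → K, Orb A B z n → (∀ i ≤ n, ∀ j ≤ n, z i = z j → i = j) →
    ∀ H : ℝ, (∀ i ≤ n, (ht P (z i) : ℝ) ≤ H) →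
    ∀ S : Finset V, (∀ v ∈ S, ∀ i ≤ n, (P.pl v).ge 0 (z i)) →
      (∀ v ∈ S, ∀ i ≤ n, ∀ j ≤ n, i ≠ j → (P.pl v).o (z i - z j) = 0) →
      (∀ v ∈ S, ¬ IsGood (P.pl v) δ A B) → (S.card : ℝ) ≤ κ * H :=
  Pool.Agent.Helper98.PS.energy δ hδ κ hκ

theorem isGood_of_iterate {k K : Type*} [Field k] [IsAlgClosed k] [Field K] [Algebra k K] (v : DV K)
    (hv : ResK k v) {d J : ℕ} (hd : 2 ≤ d) (hJ : 1 ≤ J) {A B U W : K[X]} (hAB : IsRat A B d)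
    (hUW : IsRat U W (d ^ J))
    (hit : ∀ z : ℕ → K, Orb A B z J → W.eval (z 0) ≠ 0 ∧ U.eval (z 0) / W.eval (z 0) = z J)
    (h : IsGood v (d ^ J) U W) : IsGood v d A B :=
  Pool.Agent.Helper82.PS.isGood_of_iterate v hv hd hJ hAB hUW hit h

theorem window_distinct {K : Type*} [Field K] (v : DV K) {d : ℕ} (hd : 1 ≤ d) {A B : K[X]} (hAB : IsRat A B d)
    (hg : IsGood v d A B) {z : ℕ → K} {n J N' nw : ℕ} (hJ : 1 ≤ J) (hn : N' * J ≤ n)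
    (hz : Orb A B z n) (hint : ∀ j ≤ n, v.ge 0 (z j))
    (hblock : ∀ l ≤ N', ∀ l' ≤ N', l ≠ l' → z (l * J) ≠ z (l' * J) ∧ v.o (z (l * J) - z (l' * J)) = 0)
    (hw : 2 * nw + 2 ≤ N') :
    ∀ a ≤ nw, ∀ b ≤ nw, a ≠ b → z a ≠ z b ∧ v.o (z a - z b) = 0 :=
  Pool.Agent.Helper82.PS.window_distinct v hd hAB hg hJ hn hz hint hblock hw

theorem interp (d : ℕ) (hd : 2 ≤ d) (c : ℝ) (hc : 0 < c) : ∃ m n₀ : ℕ,
    ∀ {k E W : Type} [Field k] [Field E] [Algebra k E] (Q : PSys k E W) (A B A' B' : E[X]),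
    IsRat A B d → IsRat A' B' d → ∀ n : ℕ, n₀ ≤ n → ∀ x y : ℕ → E, Orb A B x n → Orb A' B' y n →
    ∀ H : ℝ, (∀ j ≤ n, (ht Q (x j) : ℝ) ≤ H) → (∀ j ≤ n, (ht Q (y j) : ℝ) ≤ H) →
    ∀ S : Finset W, 1 ≤ S.card → c * H ≤ S.card →
      (∀ w ∈ S, IsGood (Q.pl w) d A B ∧ IsGood (Q.pl w) d A' B') →
      (∀ w ∈ S, ∀ j ≤ n, (Q.pl w).ge 0 (x j) ∧ (Q.pl w).ge 0 (y j) ∧ (Q.pl w).ge 1 (y j - x j)) →
    ∃ p : Polynomial (Polynomial E), p ≠ 0 ∧ p.natDegree < m ∧ (∀ i, (p.coeff i).natDegree < m) ∧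
      ∀ j, j + m ≤ n → (p.eval (C (y j))).eval (x j) = 0 :=
  Pool.Agent.Helper98.PS.interp d hd c hc

theorem rigidity (d m : ℕ) (hd : 2 ≤ d) : ∃ l₀ n₀ : ℕ,
    ∀ {k E : Type} [Field k] [IsAlgClosed k] [CharZero k] [Field E] [Algebra k E] (w : DV E),
    ResK k w → ∀ A B A' B' : E[X], IsRat A B d → IsRat A' B' d → IsGood w d A B → IsGood w d A' B' →
    ∀ n n₁ : ℕ, n₀ ≤ n₁ → n₁ ≤ n → ∀ x y : ℕ → E, Orb A B x n → Orb A' B' y n →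
    (∀ j ≤ n, w.ge 0 (x j) ∧ w.ge 0 (y j) ∧ w.ge 1 (y j - x j)) →
    (∀ i ≤ n, ∀ j ≤ n, i ≠ j → x i ≠ x j ∧ w.o (x i - x j) = 0) →
    ∀ p : Polynomial (Polynomial E), p ≠ 0 → p.natDegree < m → (∀ i, (p.coeff i).natDegree < m) →
      (∀ j ≤ n₁, (p.eval (C (y j))).eval (x j) = 0) →
    ∀ a b c : ℕ, a ≠ b → a ≠ c → b ≠ c → l₀ ≤ a → l₀ ≤ b → l₀ ≤ c → a ≤ n → b ≤ n → c ≤ n →
      x a = y a → x b = y b → x c = y c →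
    ∀ j, l₀ ≤ j → j ≤ n → x j = y j :=
  Pool.Agent.Helper36.PS.rigidity d m hd

theorem exists_coord {k K V : Type} [Field k] [Infinite k] [Field K] [Algebra k K] (P : PSys k K V)
    (hres : ∀ v, ResK k (P.pl v)) {d : ℕ} {F G : K[X]} (hFG : IsRat F G d) {x : ℕ → K} {N : ℕ}
    (hx : RatOrbit F G x N) (𝒥 : Finset ℕ) {α β γ : ℕ} (hα : α ∈ 𝒥) (hβ : β ∈ 𝒥) (hγ : γ ∈ 𝒥)
    (hαβ : α ≠ β) (hαγ : α ≠ γ) (hβγ : β ≠ γ) (h𝒥 : ∀ j ∈ 𝒥, j ≤ N) (S : Finset V)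
    (hS : ∀ v ∈ S, ∃ ζ : PV (P.pl v), ∀ i ∈ 𝒥, ∀ j ∈ 𝒥, i ≠ j → ζ.dir (x i) ≠ ζ.dir (x j)) :
    ∃ (F' G' : K[X]) (z : ℕ → K) (a b c e : K), a * e - b * c ≠ 0 ∧ (∀ j, c * x j + e ≠ 0) ∧
      (∀ j, z j = (a * x j + b) / (c * x j + e)) ∧
      IsRat F' G' d ∧ RatOrbit F' G' z N ∧
      (∃ c₁ : k, algebraMap k K c₁ = z α) ∧ (∃ c₂ : k, algebraMap k K c₂ = z β) ∧
      (∃ c₃ : k, algebraMap k K c₃ = z γ) ∧
      (∀ v ∈ S, ∀ j, (P.pl v).ge 0 (z j)) ∧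
      (∀ v ∈ S, ∀ i ∈ 𝒥, ∀ j ∈ 𝒥, i ≠ j → (P.pl v).o (z i - z j) = 0) ∧
      ∀ j, x j ≠ x β → ht P (z j) ≤ ht P (cr (x α) (x β) (x γ) (x j)) :=
  Pool.Agent.Helper35.PS.exists_coord P hres hFG hx 𝒥 hα hβ hγ hαβ hαγ hβγ h𝒥 S hS

theorem cr_mobius {K : Type*} [Field K] {a b c e : K} (h : a * e - b * c ≠ 0) (x z : Fin 4 → K)
    (hx : ∀ i, c * x i + e ≠ 0) (hz : ∀ i, z i = (a * x i + b) / (c * x i + e)) :
    cr (z 0) (z 1) (z 2) (z 3) = cr (x 0) (x 1) (x 2) (x 3) :=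
  Pool.Agent.Helper35.PS.cr_mobius h x z hx hz

end Pool.Agent.Helper33.PS
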