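import Pool.Agent.Helper33.PS.Main
import Pool.Agent.Helper45.M8Main

/-!
# The strong uniform boundedness principle in characteristic zero
-/

set_option autoImplicit false

open Polynomial

namespace Pool.Agent.Helper33.PS

open Pool.Agent.Helper45.M8 Pool.Agent.Helper45.S6 Pool.Agent.Helper45.FR

theorem planSAbs (d n : ℕ) (hd : 2 ≤ d) : PlanSAbs d n := by
  obtain ⟨N, hN⟩ := absS d n hd
  refine ⟨N, ?_⟩
  intro k K E V W _ _ _ _ _ _ _ _ _ P Q hP hQ hker gs F G hFG x hx hgen
  exact hN P Q hP hQ hker gs F G hFG x hx hgen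

theorem absS_charZero (k : Type) [Field k] [IsAlgClosed k] [CharZero k] (d : ℕ) (hd : 2 ≤ d) (n : ℕ) :
    AbsS k d n :=
  absS_of_planS k d (by omega) (fun n => planSAbs d n hd) n

end Pool.Agent.Helper33.PS
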